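import Pool.Agent.H.MP_fce458_co.Main

namespace Pool.Agent.Results.MP_fce458_co.SixPower
open Pool.Agent.H.MP_fce458_co

theorem result (t n : ℕ) (ht : 1 ≤ t) (hn : 2304 * t ^ 2 * 6 ^ t ≤ n) : Arrows n t :=
  main t n ht hn

end Pool.Agent.Results.MP_fce458_co.SixPower
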